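import Pool.Agent.H58.FL.TargetsD

/-!
MP_6a7a6f_gt: the inequality of the wheels with five spokes.
-/

set_option autoImplicit false

namespace Pool.Agent.H33.FL

open Pool.Agent.H58.FL Pool.Agent.H59 Pool.Agent.H48.FR

private theorem inv_bound (a T : ℝ) (_ha : 0 < a) (hT : 0 < T) (h1 : a⁻¹ ≤ T) (h2 : T ≤ a) :
    T + T⁻¹ ≤ a + a⁻¹ := by
  have h3 : 0 ≤ (a - T) * (T - a⁻¹) := mul_nonneg (by linarith) (by linarith)
  have h4 : a * a⁻¹ = 1 := mul_inv_cancel₀ (by linarith)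
  have h5 : T * T⁻¹ = 1 := mul_inv_cancel₀ hT.ne'
  have h6 : 0 ≤ T⁻¹ * ((a - T) * (T - a⁻¹)) := mul_nonneg (inv_pos.2 hT).le h3
  have h7 : T⁻¹ * ((a - T) * (T - a⁻¹)) =
      (T * T⁻¹) * a - T⁻¹ * (a * a⁻¹) - (T * T⁻¹) * T + (T * T⁻¹) * a⁻¹ := by ring
  rw [h7, h4, h5] at h6
  linarith

private theorem five (P0 P1 P2 P3 P4 : Prop) (M0 M1 M2 M3 M4 : ℝ) (m0 : M0 ≤ 1) (m1 : M1 ≤ 1)
    (m2 : M2 ≤ 1) (m3 : M3 ≤ 1) (m4 : M4 ≤ 1) (x0 : P0 → ¬ P1 → M0 ≤ 2362 / 10000)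
    (x1 : P1 → ¬ P2 → M1 ≤ 2362 / 10000) (x2 : P2 → ¬ P3 → M2 ≤ 2362 / 10000)
    (x3 : P3 → ¬ P4 → M3 ≤ 2362 / 10000) (x4 : P4 → ¬ P0 → M4 ≤ 2362 / 10000)
    (y0 : ¬ P0 → P1 → M0 ≤ 2362 / 10000) (y1 : ¬ P1 → P2 → M1 ≤ 2362 / 10000)
    (y2 : ¬ P2 → P3 → M2 ≤ 2362 / 10000) (y3 : ¬ P3 → P4 → M3 ≤ 2362 / 10000)
    (y4 : ¬ P4 → P0 → M4 ≤ 2362 / 10000) (hb : P0 ∨ P1 ∨ P2 ∨ P3 ∨ P4)
    (hs : ¬ P0 ∨ ¬ P1 ∨ ¬ P2 ∨ ¬ P3 ∨ ¬ P4) : M0 + M1 + M2 + M3 + M4 ≤ 34724 / 10000 := by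
  by_cases p0 : P0 <;> by_cases p1 : P1 <;> by_cases p2 : P2 <;> by_cases p3 : P3 <;>
    by_cases p4 : P4 <;> simp only [p0, p1, p2, p3, p4, not_true_eq_false, not_false_eq_true,
      false_imp_iff, true_imp_iff, or_false, false_or, or_true, true_or] at x0 x1 x2 x3 x4 y0 y1 y2 y3 y4 hb hs <;>
    linarith

theorem pf_I5 (hP5A : T_P5A) (hP5B : T_P5B) (hNU3 : T_NU3) : T_I5 := by
  obtain ⟨⟨hg1, hg2, hg3⟩, -⟩ := hNU3
  have hg0 : 0 < gr := by linarith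
  have hginv : gr⁻¹ = gr - 1 := by
    have h1 : gr * (gr - 1) = 1 := by nlinarith
    exact inv_eq_of_mul_eq_one_right h1
  have hginv2 : (gr ^ 2)⁻¹ = 2 - gr := by
    have h1 : gr ^ 2 * (2 - gr) = 1 := by
      rw [hg1]
      nlinarith
    exact inv_eq_of_mul_eq_one_right h1
  intro t φ γ ht5 ht hφ hφs hγ hγs hcon
  have hpi := Real.pi_pos
  have hpi1 := Real.pi_gt_d2
  have hpi2 := Real.pi_lt_d2
  have htl : ∀ j, gr⁻¹ ≤ t j := by
    intro j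
    obtain ⟨h1, h2, -⟩ := ht j
    rw [← inv_pow] at h2
    exact le_of_sq_le_sq h2 h1.le
  have htu : ∀ j, t j ≤ gr := by
    intro j
    obtain ⟨-, -, h3⟩ := ht j
    exact le_of_sq_le_sq h3 hg0.le
  have hgi0 : 0 < gr⁻¹ := inv_pos.2 hg0
  have hTl : ∀ j, (gr ^ 2)⁻¹ ≤ t j * t (j + 1) := by
    intro j
    have h1 := mul_le_mul (htl j) (htl (j + 1)) hgi0.le (ht j).1.le
    have h2 : (gr ^ 2)⁻¹ = gr⁻¹ * gr⁻¹ := by rw [← inv_pow, sq]
    rw [h2]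
    exact h1
  have hTu : ∀ j, t j * t (j + 1) ≤ gr ^ 2 := by
    intro j
    have h1 := mul_le_mul (htu j) (htu (j + 1)) (ht (j + 1)).1.le hg0.le
    rw [sq]
    exact h1
  have hT0 : ∀ j, 0 < t j * t (j + 1) := fun j => mul_pos (ht j).1 (ht (j + 1)).1
  simp only [Finset.sum_range_succ, Finset.sum_range_zero, zero_add] at hφs hγs
  by_cases hA : ∀ j, j < 5 → 1 ≤ t j * t (j + 1)
  · have h : ∀ j, j < 5 → γ j < Real.pi / 5 + (gr - 1) * (3 * Real.pi / 5 - φ j) := fun j hj =>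
      hP5A _ _ _ (hA j hj) (hTu j) (hφ j hj) (hγ j).1 (hγ j).2 (hcon j hj)
    have h0 := h 0 (by norm_num)
    have h1 := h 1 (by norm_num)
    have h2 := h 2 (by norm_num)
    have h3 := h 3 (by norm_num)
    have h4 := h 4 (by norm_num)
    have h5 : (gr - 1) * (3 * Real.pi / 5 - φ 0) + (gr - 1) * (3 * Real.pi / 5 - φ 1) +
        (gr - 1) * (3 * Real.pi / 5 - φ 2) + (gr - 1) * (3 * Real.pi / 5 - φ 3) +
        (gr - 1) * (3 * Real.pi / 5 - φ 4) =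
        (gr - 1) * (3 * Real.pi - (φ 0 + φ 1 + φ 2 + φ 3 + φ 4)) := by ring
    rw [hφs, sub_self, mul_zero] at h5
    linarith
  · push Not at hA
    obtain ⟨j0, hj0, hj0T⟩ := hA
    have hB : ∀ j, j < 5 → φ j + γ j ≤ 2 * Real.pi / 3 +
        11 / 20 * (t j * t (j + 1) + (t j * t (j + 1))⁻¹ - 2) ∧
        (3 * Real.pi / 5 ≤ φ j → gr ≤ t j * t (j + 1)) := fun j hj =>
      hP5B _ _ _ (hTl j) (hTu j) (hφ j hj) (hγ j).1 (hγ j).2 (hcon j hj)
    have hM : ∀ j, t j * t (j + 1) + (t j * t (j + 1))⁻¹ - 2 ≤ 1 := by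
      intro j
      have h1 := inv_bound (gr ^ 2) _ (by positivity) (hT0 j) (hTl j) (hTu j)
      rw [hginv2, hg1] at h1
      linarith
    have hX1 : ∀ j, 1 ≤ t j → t (j + 1) < 1 →
        t j * t (j + 1) + (t j * t (j + 1))⁻¹ - 2 ≤ 2362 / 10000 := by
      intro j h1 h2
      have h3 := inv_bound gr (t j * t (j + 1)) hg0 (hT0 j) (by
        have := mul_le_mul h1 (htl (j + 1)) hgi0.le (ht j).1.le
        rw [one_mul] at this
        exact this) (by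
        have := mul_le_mul (htu j) h2.le (ht (j + 1)).1.le hg0.le
        rw [mul_one] at this
        exact this)
      rw [hginv] at h3
      linarith
    have hX2 : ∀ j, t j < 1 → 1 ≤ t (j + 1) →
        t j * t (j + 1) + (t j * t (j + 1))⁻¹ - 2 ≤ 2362 / 10000 := by
      intro j h2 h1
      have h3 := inv_bound gr (t j * t (j + 1)) hg0 (hT0 j) (by
        have := mul_le_mul (htl j) h1 zero_le_one (ht j).1.le
        rw [mul_one] at this
        exact this) (by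
        have := mul_le_mul h2.le (htu (j + 1)) (ht (j + 1)).1.le zero_le_one
        rw [one_mul] at this
        exact this)
      rw [hginv] at h3
      linarith
    -- some value is at least one
    have hbig : ∃ j, j < 5 ∧ 1 ≤ t j := by
      by_contra hc
      push Not at hc
      obtain ⟨j, hj, hjφ⟩ : ∃ j, j < 5 ∧ 3 * Real.pi / 5 ≤ φ j := by
        by_contra hd
        push Not at hd
        have h0 := hd 0 (by norm_num)
        have h1 := hd 1 (by norm_num)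
        have h2 := hd 2 (by norm_num)
        have h3 := hd 3 (by norm_num)
        have h4 := hd 4 (by norm_num)
        linarith
      have h1 := (hB j hj).2 hjφ
      have h2 := hc j hj
      have h3 : t j * t (j + 1) < 1 * gr := by
        have h4 : t j * t (j + 1) ≤ t j * gr := mul_le_mul_of_nonneg_left (htu (j + 1)) (ht j).1.le
        have h5 : t j * gr < 1 * gr := mul_lt_mul_of_pos_right h2 hg0
        linarith
      linarith
    have hsmall : ∃ j, j < 5 ∧ t j < 1 := by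
      by_contra hc
      push Not at hc
      have h1 : 1 ≤ t j0 := hc j0 hj0
      have h2 : 1 ≤ t (j0 + 1) := by
        by_cases h : j0 = 4
        · rw [h]
          show 1 ≤ t 5
          rw [ht5]
          exact hc 0 (by norm_num)
        · exact hc (j0 + 1) (by omega)
      have h3 := mul_le_mul h1 h2 zero_le_one (ht j0).1.le
      rw [one_mul] at h3
      linarith
    have b0 := (hB 0 (by norm_num)).1
    have b1 := (hB 1 (by norm_num)).1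
    have b2 := (hB 2 (by norm_num)).1
    have b3 := (hB 3 (by norm_num)).1
    have b4 := (hB 4 (by norm_num)).1
    have m0 := hM 0
    have m1 := hM 1
    have m2 := hM 2
    have m3 := hM 3
    have m4 := hM 4
    have x0 := hX1 0
    have x1 := hX1 1
    have x2 := hX1 2
    have x3 := hX1 3
    have x4 := hX1 4
    have y0 := hX2 0
    have y1 := hX2 1
    have y2 := hX2 2
    have y3 := hX2 3
    have y4 := hX2 4
    simp only [Nat.reduceAdd, ht5] at b0 b1 b2 b3 b4 m0 m1 m2 m3 m4 x0 x1 x2 x3 x4 y0 y1 y2 y3 y4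
    obtain ⟨M0, hM0⟩ : ∃ M, M = t 0 * t 1 + (t 0 * t 1)⁻¹ - 2 := ⟨_, rfl⟩
    obtain ⟨M1, hM1⟩ : ∃ M, M = t 1 * t 2 + (t 1 * t 2)⁻¹ - 2 := ⟨_, rfl⟩
    obtain ⟨M2, hM2⟩ : ∃ M, M = t 2 * t 3 + (t 2 * t 3)⁻¹ - 2 := ⟨_, rfl⟩
    obtain ⟨M3, hM3⟩ : ∃ M, M = t 3 * t 4 + (t 3 * t 4)⁻¹ - 2 := ⟨_, rfl⟩
    obtain ⟨M4, hM4⟩ : ∃ M, M = t 4 * t 0 + (t 4 * t 0)⁻¹ - 2 := ⟨_, rfl⟩
    rw [← hM0] at b0 m0 x0 y0
    rw [← hM1] at b1 m1 x1 y1
    rw [← hM2] at b2 m2 x2 y2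
    rw [← hM3] at b3 m3 x3 y3
    rw [← hM4] at b4 m4 x4 y4
    have key : M0 + M1 + M2 + M3 + M4 ≤ 34724 / 10000 := by
      have hbig' : 1 ≤ t 0 ∨ 1 ≤ t 1 ∨ 1 ≤ t 2 ∨ 1 ≤ t 3 ∨ 1 ≤ t 4 := by
        obtain ⟨j, hj, h⟩ := hbig
        interval_cases j
        · exact Or.inl h
        · exact Or.inr (Or.inl h)
        · exact Or.inr (Or.inr (Or.inl h))
        · exact Or.inr (Or.inr (Or.inr (Or.inl h)))
        · exact Or.inr (Or.inr (Or.inr (Or.inr h)))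
      have hsmall' : t 0 < 1 ∨ t 1 < 1 ∨ t 2 < 1 ∨ t 3 < 1 ∨ t 4 < 1 := by
        obtain ⟨j, hj, h⟩ := hsmall
        interval_cases j
        · exact Or.inl h
        · exact Or.inr (Or.inl h)
        · exact Or.inr (Or.inr (Or.inl h))
        · exact Or.inr (Or.inr (Or.inr (Or.inl h)))
        · exact Or.inr (Or.inr (Or.inr (Or.inr h)))
      exact five (1 ≤ t 0) (1 ≤ t 1) (1 ≤ t 2) (1 ≤ t 3) (1 ≤ t 4) M0 M1 M2 M3 M4 m0 m1 m2 m3 m4
        (fun h h' => x0 h (not_le.1 h')) (fun h h' => x1 h (not_le.1 h'))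
        (fun h h' => x2 h (not_le.1 h')) (fun h h' => x3 h (not_le.1 h'))
        (fun h h' => x4 h (not_le.1 h')) (fun h => y0 (not_le.1 h)) (fun h => y1 (not_le.1 h))
        (fun h => y2 (not_le.1 h)) (fun h => y3 (not_le.1 h)) (fun h => y4 (not_le.1 h)) hbig'
        (by simpa only [not_le] using hsmall')
    nlinarith [b0, b1, b2, b3, b4, key, hφs, hγs, hpi1, hpi2]

end Pool.Agent.H33.FL
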