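import Pool.Agent.H58.FL.TargetsD

/-!
MP_6a7a6f_gt: two vertices of a monopole are far.
-/

set_option autoImplicit false

namespace Pool.Agent.H33.FL

open Pool.Agent.H58.FL Pool.Agent.H59 Pool.Agent.H48.FR

section

variable {E : Type} [NormedAddCommGroup E] [InnerProductSpace ℂ E]

private def QQ (p : Fin 4 → E) : Prop := Cl p ∧ mn (p 0) (p 1) (p 2) (p 3) ≠ 0

private theorem cl_comp {p : Fin 4 → E} (h : Cl p) (s : Fin 4 → Fin 4) : Cl (p ∘ s) :=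
  ⟨fun i => h.1 (s i), fun i j => h.2 (s i) (s j)⟩

private theorem sw01 (hMN4 : T_MN4) (p : Fin 4 → E) (h : QQ p) : QQ (p ∘ ![1, 0, 2, 3]) := by
  refine ⟨cl_comp h.1 _, ?_⟩
  show mn (p 1) (p 0) (p 2) (p 3) ≠ 0
  rw [((hMN4 E).2.1 p h.1).2.1]
  exact neg_ne_zero.2 h.2

private theorem sw12 (hMN4 : T_MN4) (p : Fin 4 → E) (h : QQ p) : QQ (p ∘ ![0, 2, 1, 3]) := by
  refine ⟨cl_comp h.1 _, ?_⟩
  show mn (p 0) (p 2) (p 1) (p 3) ≠ 0
  rw [((hMN4 E).2.1 p h.1).2.2.1]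
  exact neg_ne_zero.2 h.2

private theorem sw23 (hMN4 : T_MN4) (p : Fin 4 → E) (h : QQ p) : QQ (p ∘ ![0, 1, 3, 2]) := by
  refine ⟨cl_comp h.1 _, ?_⟩
  show mn (p 0) (p 1) (p 3) (p 2) ≠ 0
  rw [((hMN4 E).2.1 p h.1).2.2.2]
  exact neg_ne_zero.2 h.2

private theorem tri (hTR2 : T_TR2) (hNU3 : T_NU3) (a b c : E) (ha : ‖a‖ = 1) (hb : ‖b‖ = 1)
    (hc : ‖c‖ = 1) (hab : Ad a b) (hbc : Ad b c) (hca : Ad c a)
    (h : 3 * Real.pi / 10 < |ar a b c|) : Fr a b := by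
  obtain ⟨-, ⟨hk0, hk1, hk2, -⟩, -, -, ⟨-, hk3⟩, -⟩ := hNU3
  have hpi := Real.pi_pos
  have h1 := (hTR2 E a b c ha hb hc).1 k2 hk0 hab.le hbc.le hca.le
  have h2 : Real.cos (ar a b c) < Real.cos (3 * Real.pi / 10) := by
    rw [← Real.cos_abs (ar a b c)]
    refine Real.cos_lt_cos_of_nonneg_of_le_pi (by positivity) ?_ h
    exact Complex.abs_arg_le_pi _
  obtain ⟨ρ, hρ⟩ : ∃ ρ, ρ = ‖inner ℂ a b‖ := ⟨_, rfl⟩
  have hρ0 : 0 ≤ ρ := by rw [hρ]; exact norm_nonneg _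
  have hρ1 : k2 < ρ ^ 2 := by rw [hρ]; exact hab
  have hρ2 : 0 < ρ := by
    rcases hρ0.lt_or_eq with h3 | h3
    · exact h3
    · rw [← h3] at hρ1
      linarith
  rw [← hρ] at h1
  show ‖inner ℂ a b‖ ^ 2 ≤ 1 - k2
  rw [← hρ]
  by_contra hcon
  push Not at hcon
  rw [← hk3] at h2
  obtain ⟨s, hs⟩ : ∃ s, s = Real.sqrt (1 - k2) := ⟨_, rfl⟩
  have hs2 : s ^ 2 = 1 - k2 := by rw [hs, Real.sq_sqrt (by linarith)]
  have hs0 : 0 < s := by rw [hs]; exact Real.sqrt_pos.2 (by linarith)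
  rw [← hs] at h2
  have h3 : s < ρ := by
    by_contra h4
    push Not at h4
    have := pow_le_pow_left₀ hρ0 h4 2
    linarith
  have h4 : (ρ ^ 2 - (1 - 2 * k2)) / (2 * k2 * ρ) < 1 / (2 * s) := lt_of_le_of_lt h1 h2
  rw [div_lt_div_iff₀ (by positivity) (by positivity)] at h4
  have h5 : 0 < (ρ - s) * (s * (ρ + s) - k2) := by
    refine mul_pos (by linarith) ?_
    nlinarith
  nlinarith

private theorem key (hTR2 : T_TR2) (hMN4 : T_MN4) (hNU3 : T_NU3) (p : Fin 4 → E) (h : QQ p) :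
    Fr (p 0) (p 1) := by
  obtain ⟨hC, hm⟩ := h
  have hpi := Real.pi_pos
  have hb : ∀ i j k, |ar (p i) (p j) (p k)| < 7 * Real.pi / 10 := fun i j k =>
    (hTR2 E (p i) (p j) (p k) (hC.1 i) (hC.1 j) (hC.1 k)).2 (hC.2 i j) (hC.2 j k) (hC.2 k i)
  have hs : 2 * Real.pi ≤ |ar (p 1) (p 2) (p 3) - ar (p 0) (p 2) (p 3) + ar (p 0) (p 1) (p 3) -
      ar (p 0) (p 1) (p 2)| := by
    have h1 := ((hMN4 E).2.1 p hC).1
    unfold mn at h1 hm
    rcases h1 with h1 | h1 | h1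
    · exact absurd h1 hm
    · rw [div_eq_iff (by positivity), one_mul] at h1
      rw [h1, abs_of_pos (by positivity)]
    · rw [div_eq_iff (by positivity)] at h1
      rw [h1, abs_of_neg (by linarith)]
      linarith
  have h1 := hb 1 2 3
  have h2 := hb 0 2 3
  rw [abs_lt] at h1 h2
  by_contra hF
  have h3 : |ar (p 0) (p 1) (p 2)| ≤ 3 * Real.pi / 10 := by
    by_contra hc
    push Not at hc
    exact hF (tri hTR2 hNU3 _ _ _ (hC.1 0) (hC.1 1) (hC.1 2) (hC.2 0 1) (hC.2 1 2) (hC.2 2 0) hc)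
  have h4 : |ar (p 0) (p 1) (p 3)| ≤ 3 * Real.pi / 10 := by
    by_contra hc
    push Not at hc
    exact hF (tri hTR2 hNU3 _ _ _ (hC.1 0) (hC.1 1) (hC.1 3) (hC.2 0 1) (hC.2 1 3) (hC.2 3 0) hc)
  rw [abs_le] at h3 h4
  have h5 : |ar (p 1) (p 2) (p 3) - ar (p 0) (p 2) (p 3) + ar (p 0) (p 1) (p 3) -
      ar (p 0) (p 1) (p 2)| < 2 * Real.pi := by
    rw [abs_lt]
    constructor <;> linarith
  linarith

private theorem fr_symm {a b : E} (h : Fr a b) : Fr b a := by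
  unfold Fr at h ⊢
  rw [norm_inner_symm]
  exact h

end

theorem pf_OP2 (hTR2 : T_TR2) (hMN4 : T_MN4) (hNU3 : T_NU3) : T_OP2 := by
  intro E _ _ p hC hm i j hij
  have h : QQ p := ⟨hC, hm⟩
  have h01 : Fr (p 0) (p 1) := key hTR2 hMN4 hNU3 p h
  have a := sw12 hMN4 p h
  have h02 : Fr (p 0) (p 2) := key hTR2 hMN4 hNU3 _ a
  have h21 : Fr (p 2) (p 1) := key hTR2 hMN4 hNU3 _ (sw12 hMN4 _ (sw01 hMN4 _ a))
  have b := sw12 hMN4 _ (sw23 hMN4 p h)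
  have h03 : Fr (p 0) (p 3) := key hTR2 hMN4 hNU3 _ b
  have h31 : Fr (p 3) (p 1) := key hTR2 hMN4 hNU3 _ (sw12 hMN4 _ (sw01 hMN4 _ b))
  have h32 : Fr (p 3) (p 2) := key hTR2 hMN4 hNU3 _ (sw12 hMN4 _ (sw01 hMN4 _ (sw23 hMN4 _ b)))
  fin_cases i <;> fin_cases j <;> first
    | exact absurd rfl hij
    | exact h01
    | exact fr_symm h01
    | exact h02
    | exact fr_symm h02
    | exact h21
    | exact fr_symm h21
    | exact h03
    | exact fr_symm h03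
    | exact h31
    | exact fr_symm h31
    | exact h32
    | exact fr_symm h32

end Pool.Agent.H33.FL
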